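import Mathlib

/-!
# The weight of a function with Lipschitz constant 1

For `|φ x - φ y| ≤ |x - y|` the function `F n a = C (1 + |φ (n log 2) / log 2 + a|)^(-1-δ)` has line
sums `∑ F n (τ - 2 n) ≤ 1`, since `n ↦ φ (n log 2) / log 2 + τ - 2 n` decreases by at least 1 in every
step.
-/

set_option autoImplicit false

namespace Pool.Agent.H19.LY

open Real

/-- the weight of `φ` -/
noncomputable def wt (C δ : ℝ) (φ : ℝ → ℝ) (n a : ℤ) : ℝ :=
  C * (1 + |φ (n * log 2) / log 2 + a|) ^ (-(1 + δ))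

private theorem log2_pos : 0 < Real.log 2 := Real.log_pos (by norm_num)

theorem wt_nonneg {C δ : ℝ} (hC : 0 ≤ C) (φ : ℝ → ℝ) (n a : ℤ) : 0 ≤ wt C δ φ n a :=
  mul_nonneg hC (rpow_nonneg (by positivity) _)

private theorem summ (δ : ℝ) (hδ : 0 < δ) : Summable (fun k : ℤ => (1 + |(k : ℝ)|) ^ (-(1 + δ))) := by
  have h1 : Summable (fun n : ℕ => ((n : ℝ) + 1) ^ (-(1 + δ))) := by
    have h2 : Summable (fun n : ℕ => (n : ℝ) ^ (-(1 + δ))) :=
      Real.summable_nat_rpow.2 (by linarith)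
    have h3 := (summable_nat_add_iff 1).2 h2
    simpa using h3
  refine Summable.of_nat_of_neg ?_ ?_
  · refine h1.congr fun n => ?_
    rw [Int.cast_natCast, abs_of_nonneg (Nat.cast_nonneg n), add_comm]
  · refine h1.congr fun n => ?_
    rw [Int.cast_neg, abs_neg, Int.cast_natCast, abs_of_nonneg (Nat.cast_nonneg n), add_comm]

/-- there is a constant for all `φ` -/
theorem wt_sum (δ : ℝ) (hδ : 0 < δ) : ∃ C : ℝ, 0 < C ∧ ∀ φ : ℝ → ℝ,
    (∀ x y : ℝ, |φ x - φ y| ≤ |x - y|) →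
    ∀ (τ : ℤ) (N : Finset ℤ), ∑ n ∈ N, wt C δ φ n (τ - 2 * n) ≤ 1 := by
  classical
  have hs := summ δ hδ
  set B : ℝ := ∑' k : ℤ, (1 + |(k : ℝ)|) ^ (-(1 + δ)) with hB
  have hB0 : 0 ≤ B := tsum_nonneg fun k => rpow_nonneg (by positivity) _
  have h2 : (0 : ℝ) < 2 ^ (1 + δ) := rpow_pos_of_pos two_pos _
  refine ⟨1 / (2 ^ (1 + δ) * (B + 1)), by positivity, ?_⟩
  intro φ hφ τ N
  have hl := log2_pos
  set x : ℤ → ℝ := fun n => φ (n * log 2) / log 2 + ((τ - 2 * n : ℤ) : ℝ) with hx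
  have hgap : ∀ n m : ℤ, n < m → x m + 1 ≤ x n := by
    intro n m hnm
    have h3 : |φ (n * log 2) - φ (m * log 2)| ≤ (m - n) * log 2 := by
      refine (hφ _ _).trans (le_of_eq ?_)
      rw [← sub_mul, abs_mul, abs_of_pos hl, abs_sub_comm]
      congr 1
      have : (n : ℝ) < m := by exact_mod_cast hnm
      rw [abs_of_pos (by linarith)]
    have h4 := (abs_le.1 h3).1
    have h5 : -((m : ℝ) - n) ≤ φ (n * log 2) / log 2 - φ (m * log 2) / log 2 := by
      rw [← sub_div, le_div_iff₀ hl]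
      linarith
    have h6 : (1 : ℝ) ≤ m - n := by
      have : n + 1 ≤ m := hnm
      have : (n : ℝ) + 1 ≤ m := by exact_mod_cast this
      linarith
    simp only [hx]
    push_cast
    linarith
  have hinj : Set.InjOn (fun n => ⌊x n⌋) (N : Set ℤ) := by
    have key : ∀ n m : ℤ, n < m → ⌊x m⌋ < ⌊x n⌋ := by
      intro n m hnm
      have h3 := hgap n m hnm
      have h4 : ⌊x m⌋ + 1 ≤ ⌊x n⌋ := by
        rw [Int.le_floor]
        push_cast
        have := Int.floor_le (x m)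
        linarith
      omega
    intro n _ m _ hnm
    by_contra hne
    rcases lt_or_gt_of_ne hne with h | h
    · exact absurd hnm (key n m h).ne'
    · exact absurd hnm (key m n h).ne
  have hterm : ∀ n : ℤ, (1 + |x n|) ^ (-(1 + δ)) ≤
      2 ^ (1 + δ) * (1 + |((⌊x n⌋ : ℤ) : ℝ)|) ^ (-(1 + δ)) := by
    intro n
    have h3 : |((⌊x n⌋ : ℤ) : ℝ)| ≤ |x n| + 1 := by
      have h4 := Int.floor_le (x n)
      have h5 := Int.lt_floor_add_one (x n)
      rw [abs_le]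
      constructor
      · have := neg_abs_le (x n)
        linarith
      · have := le_abs_self (x n)
        linarith
    have h4 : (0 : ℝ) < 1 + |((⌊x n⌋ : ℤ) : ℝ)| := by positivity
    have h5 : (0 : ℝ) < 1 + |x n| := by positivity
    have h6 : (1 + |((⌊x n⌋ : ℤ) : ℝ)|) / 2 ≤ 1 + |x n| := by
      have := abs_nonneg (x n)
      linarith
    have h7 : (1 + |x n|) ^ (-(1 + δ)) ≤ ((1 + |((⌊x n⌋ : ℤ) : ℝ)|) / 2) ^ (-(1 + δ)) :=
      Real.rpow_le_rpow_of_nonpos (by positivity) h6 (by linarith)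
    refine h7.trans (le_of_eq ?_)
    rw [Real.div_rpow h4.le two_pos.le, Real.rpow_neg two_pos.le, div_inv_eq_mul, mul_comm]
  have hsum : ∑ n ∈ N, (1 + |x n|) ^ (-(1 + δ)) ≤ 2 ^ (1 + δ) * B := by
    calc ∑ n ∈ N, (1 + |x n|) ^ (-(1 + δ))
        ≤ ∑ n ∈ N, 2 ^ (1 + δ) * (1 + |((⌊x n⌋ : ℤ) : ℝ)|) ^ (-(1 + δ)) :=
          Finset.sum_le_sum fun n _ => hterm n
      _ = 2 ^ (1 + δ) * ∑ k ∈ N.image (fun n => ⌊x n⌋), (1 + |(k : ℝ)|) ^ (-(1 + δ)) := by
          rw [← Finset.mul_sum, Finset.sum_image hinj]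
      _ ≤ 2 ^ (1 + δ) * B := by
          refine mul_le_mul_of_nonneg_left ?_ h2.le
          exact hs.sum_le_tsum _ fun k _ => rpow_nonneg (by positivity) _
  have e1 : ∑ n ∈ N, wt (1 / (2 ^ (1 + δ) * (B + 1))) δ φ n (τ - 2 * n) =
      1 / (2 ^ (1 + δ) * (B + 1)) * ∑ n ∈ N, (1 + |x n|) ^ (-(1 + δ)) := by
    rw [Finset.mul_sum]
    rfl
  rw [e1]
  have h3 : 2 ^ (1 + δ) * B ≤ 2 ^ (1 + δ) * (B + 1) := mul_le_mul_of_nonneg_left (by linarith) h2.le
  calc 1 / (2 ^ (1 + δ) * (B + 1)) * ∑ n ∈ N, (1 + |x n|) ^ (-(1 + δ))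
      ≤ 1 / (2 ^ (1 + δ) * (B + 1)) * (2 ^ (1 + δ) * (B + 1)) :=
        mul_le_mul_of_nonneg_left (hsum.trans h3) (by positivity)
    _ = 1 := by
        field_simp

/-- comparison of the weight with the form with logarithms -/
theorem wt_ge (C δ ε ε' : ℝ) (hC : 0 < C) (hδ : 0 < δ) (hε' : 0 < ε')
    (h : (1 + δ) * (1 + ε') ≤ 1 + ε) : ∃ c : ℝ, 0 < c ∧ ∀ φ : ℝ → ℝ,
    (∀ x y : ℝ, |φ x - φ y| ≤ |x - y|) → ∀ q y : ℝ, 0 < q → 0 < y →
      c * (1 + |φ (log q) + log y|) ^ (-(1 + ε)) ≤ wt C δ φ ⌊logb 2 q⌋ ⌊logb 2 y⌋ ^ (1 + ε') := by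
  have hl := log2_pos
  have hl1 : Real.log 2 ≤ 1 := by
    have h := Real.log_two_lt_d9
    linarith
  have h3l : 0 < 3 / log 2 := by positivity
  have h3l1 : 1 ≤ 3 / log 2 := by
    rw [le_div_iff₀ hl]
    linarith
  refine ⟨C ^ (1 + ε') * (3 / log 2) ^ (-(1 + ε)), mul_pos (rpow_pos_of_pos hC _)
    (rpow_pos_of_pos h3l _), ?_⟩
  intro φ hφ q y hq hy
  set Y : ℝ := |φ (log q) + log y| with hY
  have hY0 : 0 ≤ Y := abs_nonneg _
  set n : ℤ := ⌊logb 2 q⌋ with hn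
  set a : ℤ := ⌊logb 2 y⌋ with ha
  have h1 : |φ (n * log 2) / log 2 + a| ≤ Y / log 2 + 2 := by
    have e1 : |φ (n * log 2) / log 2 - φ (log q) / log 2| ≤ 1 := by
      rw [← sub_div, abs_div, abs_of_pos hl, div_le_one hl]
      refine (hφ _ _).trans ?_
      have e2 : (n : ℝ) * log 2 - log q = -(logb 2 q - n) * log 2 := by
        have : logb 2 q * log 2 = log q := div_mul_cancel₀ _ hl.ne'
        linarith
      rw [e2, abs_mul, abs_of_pos hl, abs_neg]
      have e3 : |logb 2 q - n| ≤ 1 := by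
        rw [hn, abs_of_nonneg (by linarith [Int.floor_le (logb 2 q)])]
        linarith [Int.lt_floor_add_one (logb 2 q)]
      calc |logb 2 q - n| * log 2 ≤ 1 * log 2 := mul_le_mul_of_nonneg_right e3 hl.le
        _ = log 2 := one_mul _
    have e4 : |(a : ℝ) - logb 2 y| ≤ 1 := by
      rw [ha, abs_sub_comm, abs_of_nonneg (by linarith [Int.floor_le (logb 2 y)])]
      linarith [Int.lt_floor_add_one (logb 2 y)]
    have e5 : |φ (log q) / log 2 + logb 2 y| = Y / log 2 := by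
      have : φ (log q) / log 2 + logb 2 y = (φ (log q) + log y) / log 2 := by
        rw [add_div]
        rfl
      rw [this, abs_div, abs_of_pos hl]
    have e6 : φ (n * log 2) / log 2 + a = (φ (log q) / log 2 + logb 2 y) +
        ((φ (n * log 2) / log 2 - φ (log q) / log 2) + ((a : ℝ) - logb 2 y)) := by ring
    rw [e6]
    refine (abs_add_le _ _).trans ?_
    have e7 := abs_add_le (φ (n * log 2) / log 2 - φ (log q) / log 2) ((a : ℝ) - logb 2 y)
    linarith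
  have h2 : 1 + |φ (n * log 2) / log 2 + a| ≤ 3 / log 2 * (1 + Y) := by
    have e1 : 3 / log 2 * (1 + Y) = 3 / log 2 + 3 * (Y / log 2) := by ring
    have e2 : 3 ≤ 3 / log 2 := by
      rw [le_div_iff₀ hl]
      linarith
    have e3 : 0 ≤ Y / log 2 := div_nonneg hY0 hl.le
    rw [e1]
    linarith
  have hp : 0 < 1 + |φ (n * log 2) / log 2 + a| := by positivity
  have hp1 : 1 ≤ 1 + |φ (n * log 2) / log 2 + a| := by
    have := abs_nonneg (φ (n * log 2) / log 2 + a)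
    linarith
  unfold wt
  rw [Real.mul_rpow hC.le (rpow_nonneg hp.le _), ← Real.rpow_mul hp.le, mul_assoc]
  refine mul_le_mul_of_nonneg_left ?_ (rpow_nonneg hC.le _)
  rw [← Real.mul_rpow h3l.le (by linarith)]
  calc (3 / log 2 * (1 + Y)) ^ (-(1 + ε)) ≤ (1 + |φ (n * log 2) / log 2 + a|) ^ (-(1 + ε)) :=
        Real.rpow_le_rpow_of_nonpos hp h2 (by nlinarith)
    _ ≤ (1 + |φ (n * log 2) / log 2 + a|) ^ (-(1 + δ) * (1 + ε')) :=
        Real.rpow_le_rpow_of_exponent_le hp1 (by linarith)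

end Pool.Agent.H19.LY
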