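import Pool.Agent.H19.LX.Fin
import Pool.Agent.H19.LY.Lip
import Pool.Agent.H46.LM.MinB

/-!
# Weights, functions with Lipschitz constant 1 and the minimum form for the same numbers
-/

set_option autoImplicit false

namespace Pool.Agent.H19.LY

open Real

private theorem both_mul {ε c P X : ℝ} (hX : 0 ≤ X) (h : c * (1 + X) ^ (-(1 + ε)) ≤ P) :
    c ≤ P * (1 + X) ^ (1 + ε) := by
  have h0 : (0 : ℝ) < 1 + X := by linarith
  have h1 : 0 < (1 + X) ^ (1 + ε) := Real.rpow_pos_of_pos h0 _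
  have h2 := mul_le_mul_of_nonneg_right h h1.le
  rwa [mul_assoc, ← Real.rpow_add h0, neg_add_cancel, Real.rpow_zero, mul_one] at h2

theorem all_forms (A : Set ℝ) (hA : A.Countable)
    (hbad : ∀ α ∈ A, ∃ c > 0, ∀ q : ℕ, 1 ≤ q → c ≤ q * |q * α - round (q * α)|)
    (W : Set (ℤ → ℤ → ℝ)) (hW : W.Countable) (hpos : ∀ F ∈ W, ∀ n a, 0 ≤ F n a)
    (hsum : ∀ F ∈ W, ∀ (τ : ℤ) (N : Finset ℤ), ∑ n ∈ N, F n (τ - 2 * n) ≤ 1)
    (Φ : Set (ℝ → ℝ)) (hΦ : Φ.Countable) (hlip : ∀ φ ∈ Φ, ∀ x y : ℝ, |φ x - φ y| ≤ |x - y|)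
    (ε : ℝ) (hε : 0 < ε) :
    dimH {β : ℝ | ∀ α ∈ A,
      (∀ F ∈ W, ∃ c > 0, ∀ q : ℕ, 1 ≤ q →
        c * F ⌊Real.logb 2 q⌋ ⌊Real.logb 2 |q * α - round (q * α)|⌋ ^ (1 + ε) ≤
          q * |q * α - round (q * α)| * |q * β - round (q * β)|) ∧
      (∀ φ ∈ Φ, ∃ c > 0, ∀ q : ℕ, 1 ≤ q →
        c * (1 + |φ (Real.log q) + Real.log (|q * α - round (q * α)|)|) ^ (-(1 + ε)) ≤
          q * |q * α - round (q * α)| * |q * β - round (q * β)|) ∧
      ∃ c > 0, ∀ q : ℕ, 1 ≤ q →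
        c ≤ q * |q * α - round (q * α)| * |q * β - round (q * β)| *
          Real.log (2 + min (q * |q * α - round (q * α)|) (q * |q * β - round (q * β)|)) ^
            (1 + ε)} = 1 := by
  refine le_antisymm ?_ ?_
  · calc _ ≤ dimH (Set.univ : Set ℝ) := dimH_mono (Set.subset_univ _)
      _ = 1 := Real.dimH_univ
  -- the exponent
  set ε' : ℝ := √(1 + ε) - 1 with hε'
  have h1e : (1 : ℝ) < √(1 + ε) := by
    refine Real.lt_sqrt_of_sq_lt ?_
    rw [one_pow]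
    linarith
  have he0 : 0 < ε' := by linarith
  have hsq : (1 + ε') * (1 + ε') = 1 + ε := by
    have : 1 + ε' = √(1 + ε) := by
      rw [hε']
      ring
    rw [this]
    exact Real.mul_self_sqrt (by linarith)
  have hle : ε' ≤ ε := by nlinarith
  obtain ⟨C, hC, hCs⟩ := wt_sum ε' he0
  obtain ⟨κ', hκ', hge⟩ := wt_ge C ε' ε ε' hC he0 he0 hsq.le
  set Φ' : Set (ℝ → ℝ) := Φ ∪ {fun _ => 0, fun x => x} with hΦ'
  have hc : Φ'.Countable := hΦ.union (Set.Countable.insert _ (Set.countable_singleton _))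
  have hl : ∀ φ ∈ Φ', ∀ x y : ℝ, |φ x - φ y| ≤ |x - y| := by
    rintro φ (h | h | h) x y
    · exact hlip φ h x y
    · rw [h]
      simp
    · rw [Set.mem_singleton_iff] at h
      rw [h]
  have key := Pool.Agent.H19.LX.weights A hA hbad (W ∪ (wt C ε') '' Φ') (hW.union (hc.image _))
    (by
      rintro F (hF | ⟨φ, _, rfl⟩) n a
      · exact hpos F hF n a
      · exact wt_nonneg hC.le φ n a)
    (by
      rintro F (hF | ⟨φ, hφ, rfl⟩) τ N
      · exact hsum F hF τ N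
      · exact hCs φ (hl φ hφ) τ N) ε' he0
  rw [← key]
  refine dimH_mono fun β hβ α hα => ?_
  have hlipf : ∀ φ ∈ Φ', ∃ c > 0, ∀ q : ℕ, 1 ≤ q →
      c * (1 + |φ (Real.log q) + Real.log (|q * α - round (q * α)|)|) ^ (-(1 + ε)) ≤
        q * |q * α - round (q * α)| * |q * β - round (q * β)| := by
    intro φ hφ
    obtain ⟨c, hc0, h⟩ := hβ α hα (wt C ε' φ) (Or.inr ⟨φ, hφ, rfl⟩)
    have hc0' : 0 < c := hc0
    refine ⟨c * κ', mul_pos hc0' hκ', fun q hq => ?_⟩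
    obtain ⟨κ, hκ, hb⟩ := hbad α hα
    have hκ0 : 0 < κ := hκ
    have hq0 : (0 : ℝ) < q := by exact_mod_cast hq
    have hs : 0 < |(q : ℝ) * α - round (q * α)| := by
      have hbq := hb q hq
      rcases (abs_nonneg ((q : ℝ) * α - round (q * α))).lt_or_eq with h1 | h1
      · exact h1
      · rw [← h1, mul_zero] at hbq
        exact absurd hbq (not_le.mpr hκ0)
    refine le_trans ?_ (h q hq)
    rw [mul_assoc]
    exact mul_le_mul_of_nonneg_left (hge φ (hl φ hφ) q _ hq0 hs) hc0'.le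
  refine ⟨fun F hF => ?_, fun φ hφ => hlipf φ (Or.inl hφ), ?_⟩
  · obtain ⟨c, hc0, h⟩ := hβ α hα F (Or.inl hF)
    have hc0' : 0 < c := hc0
    refine ⟨c, hc0, fun q hq => le_trans (mul_le_mul_of_nonneg_left ?_ hc0'.le) (h q hq)⟩
    have h6 := hpos F hF ⌊Real.logb 2 q⌋ ⌊Real.logb 2 |q * α - round (q * α)|⌋
    have h7 : F ⌊Real.logb 2 q⌋ ⌊Real.logb 2 |q * α - round (q * α)|⌋ ≤ 1 := by
      have h8 := hsum F hF (⌊Real.logb 2 |q * α - round (q * α)|⌋ + 2 * ⌊Real.logb 2 q⌋)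
        {⌊Real.logb 2 q⌋}
      rw [Finset.sum_singleton, add_sub_cancel_right] at h8
      exact h8
    refine Real.rpow_le_rpow_of_exponent_ge_of_imp h6 h7 (by linarith) ?_
    intro _ h10
    linarith
  · obtain ⟨κ, hκ, hb⟩ := hbad α hα
    obtain ⟨c0, hc0, e0⟩ := hlipf (fun _ => 0) (Or.inr (Or.inl rfl))
    obtain ⟨c1, hc1, e1⟩ := hlipf (fun x => x) (Or.inr (Or.inr rfl))
    have hκ' : 0 < κ := hκ
    have hc0' : 0 < c0 := hc0
    have hc1' : 0 < c1 := hc1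
    obtain ⟨c, hc, h⟩ := Pool.Agent.H46.LM.convert_min hε hκ' (lt_min hc0' hc1')
    refine ⟨c, hc, fun q hq => ?_⟩
    have hq1 : (1 : ℝ) ≤ q := by exact_mod_cast hq
    have hq0 : (0 : ℝ) < q := by linarith
    have hbq := hb q hq
    have hs0 : 0 ≤ |q * α - round (q * α)| := abs_nonneg _
    have hs : 0 < |q * α - round (q * α)| := by
      rcases hs0.lt_or_eq with h1 | h1
      · exact h1
      · rw [← h1, mul_zero] at hbq
        exact absurd hbq (not_le.mpr hκ')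
    have hs1 : |q * α - round (q * α)| ≤ 1 := by
      have := abs_sub_round ((q : ℝ) * α)
      linarith
    refine h q _ _ hq1 hs hs1 (abs_nonneg _) hbq ?_ ?_
    · refine (min_le_left _ _).trans (both_mul (abs_nonneg _) ?_)
      have := e0 q hq
      simpa only [zero_add] using this
    · refine (min_le_right _ _).trans (both_mul (abs_nonneg _) ?_)
      have := e1 q hq
      rwa [← Real.log_mul hq0.ne' hs.ne'] at this

end Pool.Agent.H19.LY
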